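import Pool.Agent.Lib.MP_c86c76_al.C.D5.App

/-!
Kernel checks.
-/

set_option autoImplicit false

noncomputable section

namespace Pool.Agent.MC.D5

open Pool.Agent.MC

theorem ka2 : allIn 240 74 (unit nr dat.rowOk) = true := by
  have h0 : allIn 240 1 (unit nr dat.rowOk) = true := by decide +kernel
  have h1 : allIn 241 7 (unit nr dat.rowOk) = true := by decide +kernel
  have h2 : allIn 248 1 (unit nr dat.rowOk) = true := by decide +kernel
  have h3 : allIn 249 7 (unit nr dat.rowOk) = true := by decide +kernel
  have h4 : allIn 256 1 (unit nr dat.rowOk) = true := by decide +kernel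
  have h5 : allIn 257 7 (unit nr dat.rowOk) = true := by decide +kernel
  have h6 : allIn 264 1 (unit nr dat.rowOk) = true := by decide +kernel
  have h7 : allIn 265 7 (unit nr dat.rowOk) = true := by decide +kernel
  have h8 : allIn 272 1 (unit nr dat.rowOk) = true := by decide +kernel
  have h9 : allIn 273 7 (unit nr dat.rowOk) = true := by decide +kernel
  have h10 : allIn 280 1 (unit nr dat.rowOk) = true := by decide +kernel
  have h11 : allIn 281 7 (unit nr dat.rowOk) = true := by decide +kernel
  have h12 : allIn 288 1 (unit nr dat.rowOk) = true := by decide +kernel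
  have h13 : allIn 289 1 (unit nr dat.rowOk) = true := by decide +kernel
  have h14 : allIn 290 6 (unit nr dat.rowOk) = true := by decide +kernel
  have h15 : allIn 296 1 (unit nr dat.rowOk) = true := by decide +kernel
  have h16 : allIn 297 1 (unit nr dat.rowOk) = true := by decide +kernel
  have h17 : allIn 298 6 (unit nr dat.rowOk) = true := by decide +kernel
  have h18 : allIn 304 1 (unit nr dat.rowOk) = true := by decide +kernel
  have h19 : allIn 305 1 (unit nr dat.rowOk) = true := by decide +kernel
  have h20 : allIn 306 6 (unit nr dat.rowOk) = true := by decide +kernel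
  have h21 : allIn 312 1 (unit nr dat.rowOk) = true := by decide +kernel
  have h22 : allIn 313 1 (unit nr dat.rowOk) = true := by decide +kernel
  have c1 : allIn 240 8 (unit nr dat.rowOk) = true := app h0 h1 rfl rfl
  have c2 : allIn 240 9 (unit nr dat.rowOk) = true := app c1 h2 rfl rfl
  have c3 : allIn 240 16 (unit nr dat.rowOk) = true := app c2 h3 rfl rfl
  have c4 : allIn 240 17 (unit nr dat.rowOk) = true := app c3 h4 rfl rfl
  have c5 : allIn 240 24 (unit nr dat.rowOk) = true := app c4 h5 rfl rfl
  have c6 : allIn 240 25 (unit nr dat.rowOk) = true := app c5 h6 rfl rfl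
  have c7 : allIn 240 32 (unit nr dat.rowOk) = true := app c6 h7 rfl rfl
  have c8 : allIn 240 33 (unit nr dat.rowOk) = true := app c7 h8 rfl rfl
  have c9 : allIn 240 40 (unit nr dat.rowOk) = true := app c8 h9 rfl rfl
  have c10 : allIn 240 41 (unit nr dat.rowOk) = true := app c9 h10 rfl rfl
  have c11 : allIn 240 48 (unit nr dat.rowOk) = true := app c10 h11 rfl rfl
  have c12 : allIn 240 49 (unit nr dat.rowOk) = true := app c11 h12 rfl rfl
  have c13 : allIn 240 50 (unit nr dat.rowOk) = true := app c12 h13 rfl rfl
  have c14 : allIn 240 56 (unit nr dat.rowOk) = true := app c13 h14 rfl rfl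
  have c15 : allIn 240 57 (unit nr dat.rowOk) = true := app c14 h15 rfl rfl
  have c16 : allIn 240 58 (unit nr dat.rowOk) = true := app c15 h16 rfl rfl
  have c17 : allIn 240 64 (unit nr dat.rowOk) = true := app c16 h17 rfl rfl
  have c18 : allIn 240 65 (unit nr dat.rowOk) = true := app c17 h18 rfl rfl
  have c19 : allIn 240 66 (unit nr dat.rowOk) = true := app c18 h19 rfl rfl
  have c20 : allIn 240 72 (unit nr dat.rowOk) = true := app c19 h20 rfl rfl
  have c21 : allIn 240 73 (unit nr dat.rowOk) = true := app c20 h21 rfl rfl
  have c22 : allIn 240 74 (unit nr dat.rowOk) = true := app c21 h22 rfl rfl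
  exact c22

end Pool.Agent.MC.D5
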