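import Pool.Agent.Lib.MP_c86c76_al.C.D5.App

/-!
Kernel checks.
-/

set_option autoImplicit false

noncomputable section

namespace Pool.Agent.MC.D5

open Pool.Agent.MC

theorem ka3 : allIn 314 78 (unit nr dat.rowOk) = true := by
  have h0 : allIn 314 6 (unit nr dat.rowOk) = true := by decide +kernel
  have h1 : allIn 320 1 (unit nr dat.rowOk) = true := by decide +kernel
  have h2 : allIn 321 1 (unit nr dat.rowOk) = true := by decide +kernel
  have h3 : allIn 322 6 (unit nr dat.rowOk) = true := by decide +kernel
  have h4 : allIn 328 1 (unit nr dat.rowOk) = true := by decide +kernel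
  have h5 : allIn 329 1 (unit nr dat.rowOk) = true := by decide +kernel
  have h6 : allIn 330 6 (unit nr dat.rowOk) = true := by decide +kernel
  have h7 : allIn 336 1 (unit nr dat.rowOk) = true := by decide +kernel
  have h8 : allIn 337 7 (unit nr dat.rowOk) = true := by decide +kernel
  have h9 : allIn 344 1 (unit nr dat.rowOk) = true := by decide +kernel
  have h10 : allIn 345 7 (unit nr dat.rowOk) = true := by decide +kernel
  have h11 : allIn 352 1 (unit nr dat.rowOk) = true := by decide +kernel
  have h12 : allIn 353 7 (unit nr dat.rowOk) = true := by decide +kernel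
  have h13 : allIn 360 1 (unit nr dat.rowOk) = true := by decide +kernel
  have h14 : allIn 361 7 (unit nr dat.rowOk) = true := by decide +kernel
  have h15 : allIn 368 1 (unit nr dat.rowOk) = true := by decide +kernel
  have h16 : allIn 369 7 (unit nr dat.rowOk) = true := by decide +kernel
  have h17 : allIn 376 1 (unit nr dat.rowOk) = true := by decide +kernel
  have h18 : allIn 377 7 (unit nr dat.rowOk) = true := by decide +kernel
  have h19 : allIn 384 1 (unit nr dat.rowOk) = true := by decide +kernel
  have h20 : allIn 385 7 (unit nr dat.rowOk) = true := by decide +kernel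
  have c1 : allIn 314 7 (unit nr dat.rowOk) = true := app h0 h1 rfl rfl
  have c2 : allIn 314 8 (unit nr dat.rowOk) = true := app c1 h2 rfl rfl
  have c3 : allIn 314 14 (unit nr dat.rowOk) = true := app c2 h3 rfl rfl
  have c4 : allIn 314 15 (unit nr dat.rowOk) = true := app c3 h4 rfl rfl
  have c5 : allIn 314 16 (unit nr dat.rowOk) = true := app c4 h5 rfl rfl
  have c6 : allIn 314 22 (unit nr dat.rowOk) = true := app c5 h6 rfl rfl
  have c7 : allIn 314 23 (unit nr dat.rowOk) = true := app c6 h7 rfl rfl
  have c8 : allIn 314 30 (unit nr dat.rowOk) = true := app c7 h8 rfl rfl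
  have c9 : allIn 314 31 (unit nr dat.rowOk) = true := app c8 h9 rfl rfl
  have c10 : allIn 314 38 (unit nr dat.rowOk) = true := app c9 h10 rfl rfl
  have c11 : allIn 314 39 (unit nr dat.rowOk) = true := app c10 h11 rfl rfl
  have c12 : allIn 314 46 (unit nr dat.rowOk) = true := app c11 h12 rfl rfl
  have c13 : allIn 314 47 (unit nr dat.rowOk) = true := app c12 h13 rfl rfl
  have c14 : allIn 314 54 (unit nr dat.rowOk) = true := app c13 h14 rfl rfl
  have c15 : allIn 314 55 (unit nr dat.rowOk) = true := app c14 h15 rfl rfl
  have c16 : allIn 314 62 (unit nr dat.rowOk) = true := app c15 h16 rfl rfl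
  have c17 : allIn 314 63 (unit nr dat.rowOk) = true := app c16 h17 rfl rfl
  have c18 : allIn 314 70 (unit nr dat.rowOk) = true := app c17 h18 rfl rfl
  have c19 : allIn 314 71 (unit nr dat.rowOk) = true := app c18 h19 rfl rfl
  have c20 : allIn 314 78 (unit nr dat.rowOk) = true := app c19 h20 rfl rfl
  exact c20

end Pool.Agent.MC.D5
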