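import Pool.Agent.Lib.MP_c86c76_al.C.D5.App

/-!
Kernel checks.
-/

set_option autoImplicit false

noncomputable section

namespace Pool.Agent.MC.D5

open Pool.Agent.MC

theorem ka4 : allIn 392 160 (unit nr dat.rowOk) = true := by
  have h0 : allIn 392 2 (unit nr dat.rowOk) = true := by decide +kernel
  have h1 : allIn 394 7 (unit nr dat.rowOk) = true := by decide +kernel
  have h2 : allIn 401 7 (unit nr dat.rowOk) = true := by decide +kernel
  have h3 : allIn 408 2 (unit nr dat.rowOk) = true := by decide +kernel
  have h4 : allIn 410 7 (unit nr dat.rowOk) = true := by decide +kernel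
  have h5 : allIn 417 7 (unit nr dat.rowOk) = true := by decide +kernel
  have h6 : allIn 424 8 (unit nr dat.rowOk) = true := by decide +kernel
  have h7 : allIn 432 8 (unit nr dat.rowOk) = true := by decide +kernel
  have h8 : allIn 440 8 (unit nr dat.rowOk) = true := by decide +kernel
  have h9 : allIn 448 8 (unit nr dat.rowOk) = true := by decide +kernel
  have h10 : allIn 456 8 (unit nr dat.rowOk) = true := by decide +kernel
  have h11 : allIn 464 9 (unit nr dat.rowOk) = true := by decide +kernel
  have h12 : allIn 473 15 (unit nr dat.rowOk) = true := by decide +kernel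
  have h13 : allIn 488 16 (unit nr dat.rowOk) = true := by decide +kernel
  have h14 : allIn 504 16 (unit nr dat.rowOk) = true := by decide +kernel
  have h15 : allIn 520 18 (unit nr dat.rowOk) = true := by decide +kernel
  have h16 : allIn 538 14 (unit nr dat.rowOk) = true := by decide +kernel
  have c1 : allIn 392 9 (unit nr dat.rowOk) = true := app h0 h1 rfl rfl
  have c2 : allIn 392 16 (unit nr dat.rowOk) = true := app c1 h2 rfl rfl
  have c3 : allIn 392 18 (unit nr dat.rowOk) = true := app c2 h3 rfl rfl
  have c4 : allIn 392 25 (unit nr dat.rowOk) = true := app c3 h4 rfl rfl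
  have c5 : allIn 392 32 (unit nr dat.rowOk) = true := app c4 h5 rfl rfl
  have c6 : allIn 392 40 (unit nr dat.rowOk) = true := app c5 h6 rfl rfl
  have c7 : allIn 392 48 (unit nr dat.rowOk) = true := app c6 h7 rfl rfl
  have c8 : allIn 392 56 (unit nr dat.rowOk) = true := app c7 h8 rfl rfl
  have c9 : allIn 392 64 (unit nr dat.rowOk) = true := app c8 h9 rfl rfl
  have c10 : allIn 392 72 (unit nr dat.rowOk) = true := app c9 h10 rfl rfl
  have c11 : allIn 392 81 (unit nr dat.rowOk) = true := app c10 h11 rfl rfl
  have c12 : allIn 392 96 (unit nr dat.rowOk) = true := app c11 h12 rfl rfl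
  have c13 : allIn 392 112 (unit nr dat.rowOk) = true := app c12 h13 rfl rfl
  have c14 : allIn 392 128 (unit nr dat.rowOk) = true := app c13 h14 rfl rfl
  have c15 : allIn 392 146 (unit nr dat.rowOk) = true := app c14 h15 rfl rfl
  have c16 : allIn 392 160 (unit nr dat.rowOk) = true := app c15 h16 rfl rfl
  exact c16

end Pool.Agent.MC.D5
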