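import Pool.Agent.Lib.MP_c86c76_al.C.D5.App

/-!
Kernel checks.
-/

set_option autoImplicit false

noncomputable section

namespace Pool.Agent.MC.D5

open Pool.Agent.MC

theorem kc0 : allIn 0 145 (dat.virOk) = true := by
  have h0 : allIn 0 25 (dat.virOk) = true := by decide +kernel
  have h1 : allIn 25 25 (dat.virOk) = true := by decide +kernel
  have h2 : allIn 50 25 (dat.virOk) = true := by decide +kernel
  have h3 : allIn 75 25 (dat.virOk) = true := by decide +kernel
  have h4 : allIn 100 25 (dat.virOk) = true := by decide +kernel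
  have h5 : allIn 125 20 (dat.virOk) = true := by decide +kernel
  have c1 : allIn 0 50 (dat.virOk) = true := app h0 h1 rfl rfl
  have c2 : allIn 0 75 (dat.virOk) = true := app c1 h2 rfl rfl
  have c3 : allIn 0 100 (dat.virOk) = true := app c2 h3 rfl rfl
  have c4 : allIn 0 125 (dat.virOk) = true := app c3 h4 rfl rfl
  have c5 : allIn 0 145 (dat.virOk) = true := app c4 h5 rfl rfl
  exact c5

end Pool.Agent.MC.D5
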