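import Pool.Agent.Lib.MP_c86c76_al.C.D5.App

/-!
Kernel checks.
-/

set_option autoImplicit false

noncomputable section

namespace Pool.Agent.MC.D5

open Pool.Agent.MC

theorem kd0 : allIn 0 69 (dat.orbOk) = true := by
  have h0 : allIn 0 24 (dat.orbOk) = true := by decide +kernel
  have h1 : allIn 24 24 (dat.orbOk) = true := by decide +kernel
  have h2 : allIn 48 21 (dat.orbOk) = true := by decide +kernel
  have c1 : allIn 0 48 (dat.orbOk) = true := app h0 h1 rfl rfl
  have c2 : allIn 0 69 (dat.orbOk) = true := app c1 h2 rfl rfl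
  exact c2

end Pool.Agent.MC.D5
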