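import Pool.Agent.Lib.MP_c86c76_al.C.D5.Cer

/-!
Kernel checks.
-/

set_option autoImplicit false

noncomputable section

namespace Pool.Agent.MC.D5

open Pool.Agent.MC

theorem ke1 : allIn 500 482 (cer.segOk dat) = true := by
  have h0 : allIn 500 50 (cer.segOk dat) = true := by decide +kernel
  have h1 : allIn 550 50 (cer.segOk dat) = true := by decide +kernel
  have h2 : allIn 600 50 (cer.segOk dat) = true := by decide +kernel
  have h3 : allIn 650 50 (cer.segOk dat) = true := by decide +kernel
  have h4 : allIn 700 50 (cer.segOk dat) = true := by decide +kernel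
  have h5 : allIn 750 50 (cer.segOk dat) = true := by decide +kernel
  have h6 : allIn 800 50 (cer.segOk dat) = true := by decide +kernel
  have h7 : allIn 850 50 (cer.segOk dat) = true := by decide +kernel
  have h8 : allIn 900 50 (cer.segOk dat) = true := by decide +kernel
  have h9 : allIn 950 32 (cer.segOk dat) = true := by decide +kernel
  have c1 : allIn 500 100 (cer.segOk dat) = true := app h0 h1 rfl rfl
  have c2 : allIn 500 150 (cer.segOk dat) = true := app c1 h2 rfl rfl
  have c3 : allIn 500 200 (cer.segOk dat) = true := app c2 h3 rfl rfl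
  have c4 : allIn 500 250 (cer.segOk dat) = true := app c3 h4 rfl rfl
  have c5 : allIn 500 300 (cer.segOk dat) = true := app c4 h5 rfl rfl
  have c6 : allIn 500 350 (cer.segOk dat) = true := app c5 h6 rfl rfl
  have c7 : allIn 500 400 (cer.segOk dat) = true := app c6 h7 rfl rfl
  have c8 : allIn 500 450 (cer.segOk dat) = true := app c7 h8 rfl rfl
  have c9 : allIn 500 482 (cer.segOk dat) = true := app c8 h9 rfl rfl
  exact c9

end Pool.Agent.MC.D5
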