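import Pool.Agent.Lib.MP_c86c76_al.C.D5.Cer

/-!
Kernel checks.
-/

set_option autoImplicit false

noncomputable section

namespace Pool.Agent.MC.D5

open Pool.Agent.MC

theorem kf3 : allIn 288 96 (unit nr (cer.rowOk dat)) = true := by
  have h0 : allIn 288 8 (unit nr (cer.rowOk dat)) = true := by decide +kernel
  have h1 : allIn 296 8 (unit nr (cer.rowOk dat)) = true := by decide +kernel
  have h2 : allIn 304 8 (unit nr (cer.rowOk dat)) = true := by decide +kernel
  have h3 : allIn 312 8 (unit nr (cer.rowOk dat)) = true := by decide +kernel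
  have h4 : allIn 320 8 (unit nr (cer.rowOk dat)) = true := by decide +kernel
  have h5 : allIn 328 8 (unit nr (cer.rowOk dat)) = true := by decide +kernel
  have h6 : allIn 336 8 (unit nr (cer.rowOk dat)) = true := by decide +kernel
  have h7 : allIn 344 8 (unit nr (cer.rowOk dat)) = true := by decide +kernel
  have h8 : allIn 352 8 (unit nr (cer.rowOk dat)) = true := by decide +kernel
  have h9 : allIn 360 8 (unit nr (cer.rowOk dat)) = true := by decide +kernel
  have h10 : allIn 368 8 (unit nr (cer.rowOk dat)) = true := by decide +kernel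
  have h11 : allIn 376 8 (unit nr (cer.rowOk dat)) = true := by decide +kernel
  have c1 : allIn 288 16 (unit nr (cer.rowOk dat)) = true := app h0 h1 rfl rfl
  have c2 : allIn 288 24 (unit nr (cer.rowOk dat)) = true := app c1 h2 rfl rfl
  have c3 : allIn 288 32 (unit nr (cer.rowOk dat)) = true := app c2 h3 rfl rfl
  have c4 : allIn 288 40 (unit nr (cer.rowOk dat)) = true := app c3 h4 rfl rfl
  have c5 : allIn 288 48 (unit nr (cer.rowOk dat)) = true := app c4 h5 rfl rfl
  have c6 : allIn 288 56 (unit nr (cer.rowOk dat)) = true := app c5 h6 rfl rfl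
  have c7 : allIn 288 64 (unit nr (cer.rowOk dat)) = true := app c6 h7 rfl rfl
  have c8 : allIn 288 72 (unit nr (cer.rowOk dat)) = true := app c7 h8 rfl rfl
  have c9 : allIn 288 80 (unit nr (cer.rowOk dat)) = true := app c8 h9 rfl rfl
  have c10 : allIn 288 88 (unit nr (cer.rowOk dat)) = true := app c9 h10 rfl rfl
  have c11 : allIn 288 96 (unit nr (cer.rowOk dat)) = true := app c10 h11 rfl rfl
  exact c11

end Pool.Agent.MC.D5
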