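import Pool.Agent.Lib.MP_c86c76_al.C.D5.Ka0
import Pool.Agent.Lib.MP_c86c76_al.C.D5.Ka1
import Pool.Agent.Lib.MP_c86c76_al.C.D5.Ka2
import Pool.Agent.Lib.MP_c86c76_al.C.D5.Ka3
import Pool.Agent.Lib.MP_c86c76_al.C.D5.Ka4
import Pool.Agent.Lib.MP_c86c76_al.C.D5.Kb0
import Pool.Agent.Lib.MP_c86c76_al.C.D5.Kc0
import Pool.Agent.Lib.MP_c86c76_al.C.D5.Kd0
import Pool.Agent.Lib.MP_c86c76_al.C.D5.Ke0
import Pool.Agent.Lib.MP_c86c76_al.C.D5.Ke1
import Pool.Agent.Lib.MP_c86c76_al.C.D5.Kf0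
import Pool.Agent.Lib.MP_c86c76_al.C.D5.Kf1
import Pool.Agent.Lib.MP_c86c76_al.C.D5.Kf2
import Pool.Agent.Lib.MP_c86c76_al.C.D5.Kf3
import Pool.Agent.Lib.MP_c86c76_al.C.D5.Kf4
import Pool.Agent.Lib.MP_c86c76_al.C.D5.Kf5
import Pool.Agent.Lib.MP_c86c76_al.C.D5.Kg0

/-!
All checks.
-/

set_option autoImplicit false

noncomputable section

namespace Pool.Agent.MC.D5

open Pool.Agent.MC

theorem row0 : allIn 0 240 (unit nr dat.rowOk) = true := app ka0 ka1 rfl rfl

theorem row1 : allIn 0 314 (unit nr dat.rowOk) = true := app row0 ka2 rfl rfl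

theorem row2 : allIn 0 392 (unit nr dat.rowOk) = true := app row1 ka3 rfl rfl

theorem row3 : allIn 0 552 (unit nr dat.rowOk) = true := app row2 ka4 rfl rfl

theorem rowAll : allIn 0 552 (unit nr dat.rowOk) = true := row3

theorem loopAll : allIn 1 2050 (dat.loopOk) = true := kb0

theorem virAll : allIn 0 145 (dat.virOk) = true := kc0

theorem orbAll : allIn 0 69 (dat.orbOk) = true := kd0

theorem seg0 : allIn 0 982 (cer.segOk dat) = true := app ke0 ke1 rfl rfl

theorem segAll : allIn 0 982 (cer.segOk dat) = true := seg0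

theorem sos0 : allIn 0 192 (unit nr (cer.rowOk dat)) = true := app kf0 kf1 rfl rfl

theorem sos1 : allIn 0 288 (unit nr (cer.rowOk dat)) = true := app sos0 kf2 rfl rfl

theorem sos2 : allIn 0 384 (unit nr (cer.rowOk dat)) = true := app sos1 kf3 rfl rfl

theorem sos3 : allIn 0 480 (unit nr (cer.rowOk dat)) = true := app sos2 kf4 rfl rfl

theorem sos4 : allIn 0 552 (unit nr (cer.rowOk dat)) = true := app sos3 kf5 rfl rfl

theorem sosAll : allIn 0 552 (unit nr (cer.rowOk dat)) = true := sos4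

theorem zsAll : allIn 0 65 (fun p => allLT 3 (cer.zsOk dat p)) = true := kg0

theorem nrLe : allLT 69 (fun i => Nat.ble (nr i) 512) = true := by decide +kernel

theorem kOk (h : KtabSt) : KOk dat :=
  ⟨Nat.succ_pos _, by decide, rfl, by decide, h.1, h.2.1, h.2.2.1⟩

theorem canOk : CanOk dat := ⟨by decide +kernel, allIn_lt orbAll⟩

theorem dedOk : DedOk dat :=
  ⟨unit_all (n := 69) rowAll nrLe, fun l h1 h2 => (allIn_iff _ _ _).1 loopAll l h1 h2⟩

theorem blAll : allIn 1 68 dat.blOk = true := by decide +kernel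

theorem genAll : allIn 0 3 dat.genOk = true := by decide +kernel

theorem virOk : VirOk dat :=
  ⟨fun j h1 h2 => (allIn_iff _ _ _).1 blAll j h1 h2, allIn_lt genAll, by decide +kernel,
    by decide +kernel, by decide +kernel, allIn_lt virAll⟩

theorem gatOk : GatOk dat cer :=
  ⟨by decide +kernel, by decide +kernel, by decide +kernel, allIn_lt segAll⟩

theorem vcAll : allIn 0 145 (cer.vcOk dat) = true := by decide +kernel

theorem finOk : FinOk dat cer := ⟨allIn_lt vcAll, by decide +kernel⟩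

theorem blkAll : allIn 0 8 (cer.blkOk dat) = true := by decide +kernel

theorem nG0 : cer.nG 0 = 65 := by decide +kernel

theorem sosOk (h : KtabSt) : SosOk dat cer :=
  ⟨rfl, h.2.2.2, allIn_lt blkAll, by decide +kernel,
    fun p hp => (allLT_iff _ _).1 (allIn_lt zsAll p (nG0 ▸ hp)),
    unit_all (n := 69) sosAll nrLe⟩

/-- The relations give property (T). -/
theorem eng5 (h : KtabSt) (hE : EngSt) (G : Type) [Group G] (κ g : ℕ → G) (hM : Model κ g datM) :
    MT.HasT (Subgroup.closure (Set.range κ ∪ Set.range g)) :=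
  hE dat cer G κ g (kOk h) canOk dedOk virOk gatOk finOk (sosOk h)
    ⟨hM.mul, hM.kout, hM.gout, hM.g0, hM.rel⟩

end Pool.Agent.MC.D5
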