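import Pool.Agent.Lib.MP_c86c76_al.C.D5.Dat

/-!
Joining ranges.
-/

set_option autoImplicit false

noncomputable section

namespace Pool.Agent.MC.D5

open Pool.Agent.MC

theorem app {a l a' l' L : ℕ} {p : ℕ → Bool} (h : allIn a l p = true) (h' : allIn a' l' p = true)
    (e : a + l = a') (e' : l + l' = L) : allIn a L p = true := e' ▸ allIn_app h (e ▸ h')

end Pool.Agent.MC.D5
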